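import Pool.Agent.helper12.KZ.Spec

/-!
# Row kz:KDL (helper45): the chains of the kernel for `l ≠ p`
-/

set_option autoImplicit false

namespace Pool.Agent.KZ

open Pool.Agent.helper58.DC Pool.Agent.DI Pool.Agent.TY

/-- A `p`-subgroup of the kernel is contained in `G'`. -/
theorem KDL_le {Γ A : Type} [Group Γ] [Group A] (p l : ℕ) [hp : Fact p.Prime] [hl : Fact l.Prime]
    (π : Γ →* A) (G' : Subgroup Γ) (hlp : l ≠ p) (hF : Fr l π G') (Q : Subgroup Γ) (hQ : IsPGroup p Q)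
    (hle : Q ≤ π.ker) : Q ≤ G' := by
  intro x hx
  have hn : G'.Normal := hF.nor
  have h1 : x ^ (G'.relIndex π.ker) ∈ G' := by
    have h := Subgroup.pow_index_mem (G'.subgroupOf π.ker) ⟨x, hle hx⟩
    exact h
  have h2 : x ^ l ∈ G' := by
    obtain ⟨c, hc⟩ := hF.idx
    rw [hc, pow_mul]
    exact G'.pow_mem h1 c
  obtain ⟨k, hk⟩ := hQ ⟨x, hx⟩
  have h3 : x ^ (p ^ k) = 1 := by
    have := congrArg (Subgroup.subtype Q) hk
    simpa using this
  have hcop : IsCoprime (l : ℤ) ((p ^ k : ℕ) : ℤ) :=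
    Nat.isCoprime_iff_coprime.2 (Nat.Coprime.pow_right k ((Nat.coprime_primes hl.out hp.out).2 hlp))
  obtain ⟨u, v, huv⟩ := hcop
  have h4 : x = (x ^ l) ^ u * (x ^ (p ^ k)) ^ v := by
    rw [← zpow_natCast x l, ← zpow_natCast x (p ^ k), ← zpow_mul, ← zpow_mul, ← zpow_add,
      mul_comm (l : ℤ) u, mul_comm ((p ^ k : ℕ) : ℤ) v, huv, zpow_one]
  rw [h4, h3, one_zpow, mul_one]
  exact G'.zpow_mem h2 u

theorem KDL : KDL_stmt := by
  intro Γ A _ _ _ p l _ _ π G' g hlp hF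
  have h : {C : Finset (Subgroup Γ) | PCh p π.ker ⊥ C} = {C : Finset (Subgroup Γ) | PCh p G' ⊥ C} := by
    ext C
    constructor
    · intro hC
      exact ⟨hC.chain, hC.mem, hC.bot, fun Q hQ => KDL_le p l π G' hlp hF Q (hC.pg Q hQ) (hC.le Q hQ), hC.pg⟩
    · intro hC
      exact ⟨hC.chain, hC.mem, hC.bot, fun Q hQ => (hC.le Q hQ).trans hF.le, hC.pg⟩
  simp only [cSum, h]

end Pool.Agent.KZ
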