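import Pool.Agent.helper12.KZ.Spec

/-!
# Row kz:KIN (helper45): an integer divisible by all powers of a prime is zero
-/

set_option autoImplicit false

namespace Pool.Agent.KZ

open Pool.Agent.helper58.DC Pool.Agent.DI Pool.Agent.TY

theorem KIN (hKST : KST_stmt) : KIN_stmt := by
  intro p l _ _ M hM hp A _ _ hN h1
  have hk : ∀ k : ℕ, HypE p M A ((l : ℤ) ^ (k + 1)) := by
    intro k
    induction k with
    | zero => simpa using h1
    | succ k ih => exact hKST p l M hM hp A hN (k + 1) (by omega) ih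
  intro G E _ _ _ _ X hG χ hχ d hd
  have h2 : ∀ k : ℕ, (l : ℤ) ^ (k + 1) ∣ altSum X p M χ d ⊤ := fun k => hk k G E X hG χ hχ d hd
  generalize altSum X p M χ d ⊤ = a at h2
  by_contra hne
  have ha : a ≠ 0 := fun h => hne (by rw [h])
  have h4 : l ^ (a.natAbs + 1) ∣ a.natAbs := by
    have := Int.natAbs_dvd_natAbs.2 (h2 a.natAbs)
    rwa [Int.natAbs_pow, Int.natAbs_natCast] at this
  have h5 := Nat.le_of_dvd (Int.natAbs_pos.2 ha) h4
  have h6 : a.natAbs + 1 < l ^ (a.natAbs + 1) := Nat.lt_pow_self (Fact.out : l.Prime).one_lt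
  omega

end Pool.Agent.KZ
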